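import Pool.Agent.Helper1.RK.StD

/-! # Project RK: module IRR (no root) -/

set_option autoImplicit false

open Polynomial

namespace Pool.Agent.Helper93.RK

open Pool.Agent.Helper1.RK

theorem pIRR : StIRR := by
  intro E _ b hb g hg
  have hint : IsIntegral E[X] g := by
    refine ⟨(X ^ 3 + C (X : E[X]) * X + C (C b) : E[X][X]), ?_, ?_⟩
    · have h1 : (C (X : E[X]) * X + C (C b) : E[X][X]).degree < (3 : ℕ) := by
        refine lt_of_le_of_lt (degree_linear_le) ?_
        norm_num
      have h2 := monic_X_pow_add h1
      rwa [← add_assoc] at h2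
    · rw [eval₂_add, eval₂_add, eval₂_pow, eval₂_mul, eval₂_X, eval₂_C, eval₂_C,
        RatFunc.algebraMap_X, RatFunc.algebraMap_C]
      exact hg
  obtain ⟨p, rfl⟩ := IsIntegrallyClosed.algebraMap_eq_of_integral hint
  have hp : p ^ 3 + (X * p + C b) = 0 := by
    apply RatFunc.algebraMap_injective E
    rw [map_add, map_add, map_pow, map_mul, RatFunc.algebraMap_X, RatFunc.algebraMap_C, map_zero,
      ← add_assoc]
    exact hg
  rcases Nat.eq_zero_or_pos p.natDegree with h0 | h0
  · obtain ⟨c, rfl⟩ := natDegree_eq_zero.1 h0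
    have h1 := congrArg (fun q : E[X] => q.coeff 1) hp
    have h2 := congrArg (fun q : E[X] => q.coeff 0) hp
    simp only [← C_pow, coeff_add, coeff_C_succ, coeff_X_mul, coeff_C_zero, coeff_zero,
      coeff_X_mul_zero, zero_add, add_zero] at h1 h2
    rw [h1] at h2
    simp at h2
    exact hb h2
  · have hlt : (X * p + C b).natDegree < (p ^ 3).natDegree := by
      refine lt_of_le_of_lt (natDegree_add_le _ _) ?_
      rw [natDegree_C, natDegree_pow]
      have h1 : (X * p).natDegree ≤ 1 + p.natDegree := by
        refine natDegree_mul_le.trans ?_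
        have := natDegree_X_le (R := E)
        omega
      have h2 : max (X * p).natDegree 0 ≤ 1 + p.natDegree := max_le h1 (by omega)
      omega
    have h3 := natDegree_add_eq_left_of_natDegree_lt hlt
    rw [hp, natDegree_zero, natDegree_pow] at h3
    omega

end Pool.Agent.Helper93.RK
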